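import Mathlib
import Pool.Agent.Lib_helper53.SADefs
import Pool.Agent.Lib_helper53.SABergmanDefs
import Pool.Agent.Lib_helper53.SABergmanProof

open Pool.Agent.Lib_helper53.SA

/-- Q2: for every `p > 0` and every `α > -1` the strongly annular functions in the weighted Bergman
space are spaceable there. -/
theorem Pool.Agent.Results.MP_fdf3ca_an.SpaceableBergman.result :
    ∀ (p α : ℝ) (hp : 0 < p), -1 < α →
      Spaceable (bergmanTopology p α hp) {f : Bergman p α hp | StronglyAnnular (f : Disc → ℂ)} :=
  main_bergman
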