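import Mathlib
import Pool.Agent.Lib_helper53.SADefs
import Pool.Agent.Lib_helper53.SAProof

open Pool.Agent.Lib_helper53.SA

/-- Q1: there is a closed infinite-dimensional subspace of H(D) (topology of uniform convergence on
compact sets) all of whose nonzero elements are strongly annular. -/
theorem Pool.Agent.Results.MP_fdf3ca_an.SpaceableHD.result :
    Spaceable compactConvergence {f : HD | StronglyAnnular (f : Disc → ℂ)} := main
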